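import Mathlib

/-!
# Random conductances on Galton–Watson trees: the covariance can be negative

Offspring law `(δ_2 + δ_11)/2`, conductance `2` between two vertices of index `11`, conductance `1`
otherwise. By the parallel law at the root and by exchangeability of the branches,
`E(C(T_0^*)/C(T); ι(o) = k) = p_k/(k+1)`. Hence `E(C(T_0^*)/C(T)) = 5/24`,
`E(ξ_0 C(T_0^*)/C(T)) ≤ 5/24 + 1/24`, `E ξ_0 = 5/4`, and the covariance is at most `-1/96`.
The proof idea (negative correlation of `C(T_0^*)/C(T)` with the degree) is by helper985.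
-/

open MeasureTheory ProbabilityTheory Filter
open scoped ENNReal Topology

namespace Pool.Agent.Results.MP_8be476_pr.NegativeCovariance

/-- Ulam–Harris words: the root is `[]`, the `i`-th child of `v` is `v ++ [i]`. -/
abbrev Vertex := List ℕ

/-- A sample: the index of every word, and, for every word `w ≠ []` (that is, for the edge joining
`w` to its parent) and every unordered pair of indices, a candidate for the conductance of that
edge. -/
abbrev Sample := (Vertex → ℕ) × (Vertex × Sym2 ℕ → ℝ)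

/-- All the indices have law `p`, the candidate for the pair `s` has law `mu s`, and all these
random variables are independent. -/
noncomputable def gw (p : Measure ℕ) [IsProbabilityMeasure p] (mu : Sym2 ℕ → Measure ℝ)
    [∀ s, IsProbabilityMeasure (mu s)] : Measure Sample :=
  (Measure.infinitePi fun _ : Vertex => p).prod
    (Measure.infinitePi fun e : Vertex × Sym2 ℕ => mu e.2)

/-- Number of children of `v` in the augmented tree: index of `v`, plus one for the root.
The vertices of the tree are the words reached from the root through such children. -/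
def nch (ω : Sample) (v : Vertex) : ℕ := if v = [] then ω.1 v + 1 else ω.1 v

/-- Conductance of the edge joining `v` and its child `v ++ [i]`: it has law `mu s(k, m)` if `k`
and `m` are the indices of `v` and of `v ++ [i]`. -/
def xi (ω : Sample) (v : Vertex) (i : ℕ) : ℝ := ω.2 (v ++ [i], s(ω.1 v, ω.1 (v ++ [i])))

/-- Effective conductance between `v` and the `n`-th generation below `v` in the subtree of the
descendants of `v` (series and parallel laws). -/
noncomputable def effN (ω : Sample) : ℕ → Vertex → ℝ≥0∞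
  | 0, _ => ⊤
  | n + 1, v => ∑ i ∈ Finset.range (nch ω v),
      ((ENNReal.ofReal (xi ω v i))⁻¹ + (effN ω n (v ++ [i]))⁻¹)⁻¹

/-- Effective conductance from `v` to infinity in the subtree of the descendants of `v`; for
`v = []` this is `C(T)`, for `v = [i]` this is `C(T_i)`. -/
noncomputable def eff (ω : Sample) (v : Vertex) : ℝ≥0∞ := ⨅ n, effN ω n v

/-- `C(T_i^*) = (1/ξ_i + 1/C(T_i))^{-1}`, where `T_i^*` is the subtree at the `i`-th child of the
root together with the edge to the root. -/
noncomputable def branch (ω : Sample) (i : ℕ) : ℝ≥0∞ :=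
  ((ENNReal.ofReal (xi ω [] i))⁻¹ + (eff ω [i])⁻¹)⁻¹

/-- `ξ_0`, the conductance of the edge from the root to `w_0 = [0]`. -/
def xi0 (ω : Sample) : ℝ := xi ω [] 0

/-- `C(T_0^*) / C(T)`. -/
noncomputable def ratio (ω : Sample) : ℝ := (branch ω 0 / eff ω []).toReal

/-- `γ_{k,m}`, the mean of `mu s(k,m)`. -/
noncomputable def edgeMean (mu : Sym2 ℕ → Measure ℝ) (s : Sym2 ℕ) : ℝ≥0∞ :=
  ∫⁻ x, ENNReal.ofReal x ∂(mu s)

/-- `γ = ∑_{k,m} p_k p_m γ_{k,m}`. -/
noncomputable def gam (p : Measure ℕ) (mu : Sym2 ℕ → Measure ℝ) : ℝ≥0∞ :=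
  ∑' k : ℕ, ∑' m : ℕ, p {k} * p {m} * edgeMean mu s(k, m)

/-- `v_SRW = ∑_k p_k (k-1)/(k+1)`, the speed for constant conductances. -/
noncomputable def vSRW (p : Measure ℕ) : ℝ :=
  ∑' k : ℕ, (p {k}).toReal * (((k : ℝ) - 1) / ((k : ℝ) + 1))

/-- The value `1 - (2/γ) E(ξ_0 C(T_0^*)/C(T))` of the speed (known formula for `γ < ∞`). -/
noncomputable def speedValue (p : Measure ℕ) [IsProbabilityMeasure p] (mu : Sym2 ℕ → Measure ℝ)
    [∀ s, IsProbabilityMeasure (mu s)] : ℝ :=
  1 - 2 / (gam p mu).toReal * ∫ ω, xi0 ω * ratio ω ∂(gw p mu)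

/-! ### Monotonicity, parallel law at the root -/

lemma effN_succ (ω : Sample) (n : ℕ) (v : Vertex) :
    effN ω (n + 1) v = ∑ i ∈ Finset.range (nch ω v),
      ((ENNReal.ofReal (xi ω v i))⁻¹ + (effN ω n (v ++ [i]))⁻¹)⁻¹ := rfl

lemma effN_anti_succ (ω : Sample) (n : ℕ) : ∀ v, effN ω (n + 1) v ≤ effN ω n v := by
  induction n with
  | zero => intro v; exact le_top
  | succ n ih =>
    intro v
    rw [effN_succ, effN_succ]
    refine Finset.sum_le_sum fun i _ => ?_
    refine ENNReal.inv_le_inv.mpr ?_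
    exact add_le_add le_rfl (ENNReal.inv_le_inv.mpr (ih _))

lemma effN_anti (ω : Sample) (v : Vertex) : Antitone (fun n => effN ω n v) :=
  antitone_nat_of_succ_le fun n => effN_anti_succ ω n v

lemma tendsto_effN (ω : Sample) (v : Vertex) :
    Tendsto (fun n => effN ω n v) atTop (𝓝 (eff ω v)) :=
  tendsto_atTop_iInf (effN_anti ω v)

lemma eff_root (ω : Sample) : eff ω [] = ∑ i ∈ Finset.range (nch ω []), branch ω i := by
  have h1 : Tendsto (fun n => effN ω (n + 1) []) atTop (𝓝 (eff ω [])) :=
    (tendsto_effN ω []).comp (tendsto_add_atTop_nat 1)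
  have h2 : Tendsto (fun n => effN ω (n + 1) []) atTop
      (𝓝 (∑ i ∈ Finset.range (nch ω []), branch ω i)) := by
    simp only [effN_succ]
    refine tendsto_finsetSum _ fun i _ => ?_
    have h3 := tendsto_effN ω [i]
    have h4 : Tendsto (fun n => (effN ω n [i])⁻¹) atTop (𝓝 (eff ω [i])⁻¹) :=
      (continuous_inv.tendsto _).comp h3
    exact (continuous_inv.tendsto _).comp (tendsto_const_nhds.add h4)
  exact tendsto_nhds_unique h1 h2

/-! ### Measurability -/

lemma measurable_label (v : Vertex) : Measurable (fun ω : Sample => ω.1 v) :=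
  (measurable_pi_apply v).comp measurable_fst

lemma measurable_xi (v : Vertex) (i : ℕ) : Measurable (fun ω : Sample => xi ω v i) := by
  have hc : Countable (Sym2 ℕ) := Quotient.countable
  intro B hB
  have : (fun ω : Sample => xi ω v i) ⁻¹' B =
      ⋃ a : ℕ × ℕ, ({ω : Sample | ω.1 v = a.1} ∩ {ω : Sample | ω.1 (v ++ [i]) = a.2}) ∩
        {ω : Sample | ω.2 (v ++ [i], s(a.1, a.2)) ∈ B} := by
    ext ω
    simp only [Set.mem_preimage, Set.mem_iUnion, Set.mem_inter_iff, Set.mem_ofPred_eq, xi]
    constructor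
    · intro h
      exact ⟨(ω.1 v, ω.1 (v ++ [i])), ⟨rfl, rfl⟩, h⟩
    · rintro ⟨a, ⟨h1, h2⟩, h3⟩
      rw [h1, h2]; exact h3
  rw [this]
  refine MeasurableSet.iUnion fun a => ?_
  refine ((measurable_label v (measurableSet_singleton a.1)).inter
    (measurable_label (v ++ [i]) (measurableSet_singleton a.2))).inter ?_
  exact ((measurable_pi_apply (v ++ [i], s(a.1, a.2))).comp measurable_snd) hB

lemma measurable_nch (v : Vertex) : Measurable (fun ω : Sample => nch ω v) := by
  unfold nch
  by_cases hv : v = []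
  · simp only [hv, if_true]
    exact (measurable_label []).add_const 1
  · simp only [hv, if_false]
    exact measurable_label v

lemma measurable_range_sum {N : Sample → ℕ} (hN : Measurable N) {g : ℕ → Sample → ℝ≥0∞}
    (hg : ∀ i, Measurable (g i)) :
    Measurable (fun ω => ∑ i ∈ Finset.range (N ω), g i ω) := by
  have : (fun ω => ∑ i ∈ Finset.range (N ω), g i ω) =
      fun ω => ∑' i : ℕ, (N ⁻¹' (Set.Ioi i)).indicator (g i) ω := by
    funext ω
    rw [tsum_eq_sum (s := Finset.range (N ω))]
    · refine Finset.sum_congr rfl fun i hi => ?_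
      rw [Set.indicator_of_mem]
      simpa using hi
    · intro i hi
      rw [Set.indicator_of_notMem]
      simpa using hi
  rw [this]
  refine Measurable.tsum fun i => ?_
  exact (hg i).indicator (hN measurableSet_Ioi)

lemma measurable_effN (n : ℕ) : ∀ v, Measurable (fun ω => effN ω n v) := by
  induction n with
  | zero => intro v; exact measurable_const
  | succ n ih =>
    intro v
    simp only [effN_succ]
    refine measurable_range_sum (measurable_nch v) fun i => ?_
    exact ((measurable_xi v i).ennreal_ofReal.inv.add (ih _).inv).inv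

lemma measurable_eff (v : Vertex) : Measurable (fun ω => eff ω v) :=
  Measurable.iInf fun n => measurable_effN n v

lemma measurable_branch (i : ℕ) : Measurable (fun ω => branch ω i) :=
  ((measurable_xi [] i).ennreal_ofReal.inv.add (measurable_eff [i]).inv).inv

/-! ### Swapping two branches at the root -/

/-- swap the branches `0` and `i` at the root -/
def tau (i : ℕ) : Vertex → Vertex
  | [] => []
  | a :: l => (Equiv.swap 0 i a) :: l

lemma tau_tau (i : ℕ) (v : Vertex) : tau i (tau i v) = v := by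
  cases v with
  | nil => rfl
  | cons a l => simp [tau]

def tauE (i : ℕ) : Vertex ≃ Vertex where
  toFun := tau i
  invFun := tau i
  left_inv := tau_tau i
  right_inv := tau_tau i

lemma tau_append (i : ℕ) (v : Vertex) (hv : v ≠ []) (l : Vertex) :
    tau i (v ++ l) = tau i v ++ l := by
  cases v with
  | nil => exact absurd rfl hv
  | cons a l' => simp [tau]

lemma tau_ne_nil (i : ℕ) (v : Vertex) : tau i v = [] ↔ v = [] := by
  cases v with
  | nil => simp [tau]
  | cons a l => simp [tau]

/-- the induced map on samples -/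
def phi (i : ℕ) (ω : Sample) : Sample := (fun v => ω.1 (tau i v), fun e => ω.2 (tau i e.1, e.2))

lemma phi_nch (i : ℕ) (ω : Sample) (v : Vertex) : nch (phi i ω) v = nch ω (tau i v) := by
  unfold nch
  simp only [tau_ne_nil, phi]

lemma phi_xi (i : ℕ) (ω : Sample) (v : Vertex) (hv : v ≠ []) (j : ℕ) :
    xi (phi i ω) v j = xi ω (tau i v) j := by
  unfold xi phi
  simp only [tau_append i v hv]

lemma phi_effN (i : ℕ) (ω : Sample) (n : ℕ) : ∀ v, v ≠ [] →
    effN (phi i ω) n v = effN ω n (tau i v) := by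
  induction n with
  | zero => intro v _; rfl
  | succ n ih =>
    intro v hv
    rw [effN_succ, effN_succ, phi_nch]
    refine Finset.sum_congr rfl fun j _ => ?_
    rw [phi_xi i ω v hv, ih _ (by simp), tau_append i v hv]

lemma phi_eff (i : ℕ) (ω : Sample) (v : Vertex) (hv : v ≠ []) :
    eff (phi i ω) v = eff ω (tau i v) := by
  unfold eff
  simp only [phi_effN i ω _ v hv]

lemma phi_branch (i j : ℕ) (ω : Sample) : branch (phi i ω) j = branch ω (Equiv.swap 0 i j) := by
  unfold branch
  rw [phi_eff i ω [j] (by simp)]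
  rfl

lemma phi_eff_root (i : ℕ) (ω : Sample) (hi : i < nch ω []) : eff (phi i ω) [] = eff ω [] := by
  rw [eff_root, eff_root, phi_nch]
  have h0 : tau i [] = [] := rfl
  rw [h0]
  simp only [phi_branch]
  refine Finset.sum_nbij' (fun j => Equiv.swap 0 i j) (fun j => Equiv.swap 0 i j) ?_ ?_ ?_ ?_ ?_
  · intro j hj
    simp only [Finset.mem_range] at hj ⊢
    rcases eq_or_ne j 0 with rfl | h1
    · rw [Equiv.swap_apply_left]; exact hi
    rcases eq_or_ne j i with rfl | h2
    · rw [Equiv.swap_apply_right]; omega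
    · rw [Equiv.swap_apply_of_ne_of_ne h1 h2]; exact hj
  · intro j hj
    simp only [Finset.mem_range] at hj ⊢
    rcases eq_or_ne j 0 with rfl | h1
    · rw [Equiv.swap_apply_left]; exact hi
    rcases eq_or_ne j i with rfl | h2
    · rw [Equiv.swap_apply_right]; omega
    · rw [Equiv.swap_apply_of_ne_of_ne h1 h2]; exact hj
  · intro j _; simp
  · intro j _; simp
  · intro j _; rfl

lemma measurePreserving_phi (p : Measure ℕ) [IsProbabilityMeasure p] (mu : Sym2 ℕ → Measure ℝ)
    [∀ s, IsProbabilityMeasure (mu s)] (i : ℕ) :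
    MeasurePreserving (phi i) (gw p mu) (gw p mu) := by
  have h1 : MeasurePreserving (fun (x : Vertex → ℕ) => fun v => x (tau i v))
      (Measure.infinitePi fun _ : Vertex => p) (Measure.infinitePi fun _ : Vertex => p) := by
    refine ⟨by fun_prop, ?_⟩
    have := Measure.infinitePi_map_piCongrLeft (μ := fun _ : Vertex => p) (tauE i)
    convert this using 2
    funext x
    funext v
    rw [MeasurableEquiv.coe_piCongrLeft]
    have hv : v = tauE i (tauE i v) := (tau_tau i v).symm
    conv_rhs => rw [hv]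
    rw [Equiv.piCongrLeft_apply_apply]
    rfl
  have h2 : MeasurePreserving (fun (x : Vertex × Sym2 ℕ → ℝ) => fun e => x (tau i e.1, e.2))
      (Measure.infinitePi fun e : Vertex × Sym2 ℕ => mu e.2)
      (Measure.infinitePi fun e : Vertex × Sym2 ℕ => mu e.2) := by
    refine ⟨by fun_prop, ?_⟩
    have := Measure.infinitePi_map_piCongrLeft (μ := fun e : Vertex × Sym2 ℕ => mu e.2)
      (Equiv.prodCongr (tauE i) (Equiv.refl (Sym2 ℕ)))
    have h3 : (fun j : Vertex × Sym2 ℕ =>
        mu ((Equiv.prodCongr (tauE i) (Equiv.refl (Sym2 ℕ))) j).2) = fun e => mu e.2 := rfl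
    rw [show (Measure.infinitePi fun e : Vertex × Sym2 ℕ => mu e.2) =
      Measure.infinitePi (fun j : Vertex × Sym2 ℕ =>
        mu ((Equiv.prodCongr (tauE i) (Equiv.refl (Sym2 ℕ))) j).2) from rfl]
    convert this using 2
    funext x
    funext v
    rw [MeasurableEquiv.coe_piCongrLeft]
    have hv : v = (Equiv.prodCongr (tauE i) (Equiv.refl (Sym2 ℕ)))
        ((Equiv.prodCongr (tauE i) (Equiv.refl (Sym2 ℕ))) v) := by
      ext1
      · exact (tau_tau i v.1).symm
      · rfl
    conv_rhs => rw [hv]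
    rw [Equiv.piCongrLeft_apply_apply]
    rfl
  exact h1.prod h2

/-! ### The example: `p = (δ_2 + δ_11)/2`, conductance `2` between two vertices of index `11` and
conductance `1` otherwise -/

/-- the offspring law -/
noncomputable def pp : Measure ℕ := (2⁻¹ : ℝ≥0∞) • Measure.dirac 2 + (2⁻¹ : ℝ≥0∞) • Measure.dirac 11

instance : IsProbabilityMeasure pp := by
  constructor
  simp [pp, ENNReal.inv_two_add_inv_two]

open Classical in
/-- the value of the conductances -/
noncomputable def cc (s : Sym2 ℕ) : ℝ := if s = s(11, 11) then 2 else 1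

/-- the conductance laws -/
noncomputable def mm (s : Sym2 ℕ) : Measure ℝ := Measure.dirac (cc s)

instance (s : Sym2 ℕ) : IsProbabilityMeasure (mm s) := by unfold mm; infer_instance

lemma one_le_cc (s : Sym2 ℕ) : 1 ≤ cc s := by
  unfold cc; split_ifs <;> norm_num

lemma cc_le (s : Sym2 ℕ) : cc s ≤ 2 := by
  unfold cc; split_ifs <;> norm_num

/-- good samples -/
def Good (ω : Sample) : Prop := (∀ e : Vertex × Sym2 ℕ, ω.2 e = cc e.2) ∧
  ∀ v, ω.1 v = 2 ∨ ω.1 v = 11

lemma ae_good : ∀ᵐ ω ∂(gw pp mm), Good ω := by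
  have hc : Countable (Sym2 ℕ) := Quotient.countable
  refine Filter.Eventually.and ?_ ?_
  · rw [ae_all_iff]
    intro e
    have h1 : MeasurePreserving (fun ω : Sample => ω.2 e) (gw pp mm) (mm e.2) :=
      (measurePreserving_eval_infinitePi (fun e : Vertex × Sym2 ℕ => mm e.2) e).comp
        measurePreserving_snd
    have h2 : ∀ᵐ x ∂(mm e.2), x = cc e.2 := by
      unfold mm
      rw [ae_iff, Measure.dirac_apply' _ (by measurability)]
      simp
    exact h1.quasiMeasurePreserving.ae h2
  · rw [ae_all_iff]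
    intro v
    have h1 : MeasurePreserving (fun ω : Sample => ω.1 v) (gw pp mm) pp :=
      (measurePreserving_eval_infinitePi (fun _ : Vertex => pp) v).comp
        measurePreserving_fst
    have h2 : ∀ᵐ x ∂pp, x = 2 ∨ x = 11 := by
      rw [ae_iff]
      simp [pp]
    exact h1.quasiMeasurePreserving.ae h2

lemma Good.xi {ω : Sample} (h : Good ω) (v : Vertex) (i : ℕ) :
    xi ω v i = cc s(ω.1 v, ω.1 (v ++ [i])) := h.1 _

lemma Good.two_le_nch {ω : Sample} (h : Good ω) (v : Vertex) : 2 ≤ nch ω v := by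
  unfold nch
  rcases h.2 v with h1 | h1 <;> split_ifs <;> omega

lemma Good.one_le_effN {ω : Sample} (h : Good ω) (n : ℕ) : ∀ v, 1 ≤ effN ω n v := by
  induction n with
  | zero => intro v; exact le_top
  | succ n ih =>
    intro v
    rw [effN_succ]
    have h1 : ∀ i ∈ Finset.range 2, (2⁻¹ : ℝ≥0∞) ≤
        ((ENNReal.ofReal (NegativeCovariance.xi ω v i))⁻¹ + (effN ω n (v ++ [i]))⁻¹)⁻¹ := by
      intro i _
      rw [ENNReal.inv_le_inv]
      have h2 : (ENNReal.ofReal (NegativeCovariance.xi ω v i))⁻¹ ≤ 1 := by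
        rw [ENNReal.inv_le_one, h.xi, ← ENNReal.ofReal_one]
        exact ENNReal.ofReal_le_ofReal (one_le_cc _)
      have h3 : (effN ω n (v ++ [i]))⁻¹ ≤ 1 := by
        rw [ENNReal.inv_le_one]; exact ih _
      calc _ ≤ (1 : ℝ≥0∞) + 1 := add_le_add h2 h3
        _ = 2 := by norm_num
    calc (1 : ℝ≥0∞) = ∑ i ∈ Finset.range 2, (2⁻¹ : ℝ≥0∞) := by
          simp [ENNReal.mul_inv_cancel]
      _ ≤ ∑ i ∈ Finset.range 2,
        ((ENNReal.ofReal (NegativeCovariance.xi ω v i))⁻¹ + (effN ω n (v ++ [i]))⁻¹)⁻¹ :=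
          Finset.sum_le_sum h1
      _ ≤ _ := Finset.sum_le_sum_of_subset (by
          intro i hi
          simp only [Finset.mem_range] at hi ⊢
          have := h.two_le_nch v
          omega)

lemma Good.one_le_eff {ω : Sample} (h : Good ω) (v : Vertex) : 1 ≤ eff ω v :=
  le_iInf fun n => h.one_le_effN n v

lemma Good.branch_le {ω : Sample} (h : Good ω) (i : ℕ) : branch ω i ≤ 2 := by
  unfold branch
  have h1 : (ENNReal.ofReal (NegativeCovariance.xi ω [] i)) ≤ 2 := by
    rw [h.xi, show (2 : ℝ≥0∞) = ENNReal.ofReal 2 by simp]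
    exact ENNReal.ofReal_le_ofReal (cc_le _)
  calc _ ≤ ((ENNReal.ofReal (NegativeCovariance.xi ω [] i))⁻¹)⁻¹ :=
        ENNReal.inv_le_inv.mpr le_self_add
    _ = ENNReal.ofReal (NegativeCovariance.xi ω [] i) := inv_inv _
    _ ≤ 2 := h1

lemma Good.eff_root_lt_top {ω : Sample} (h : Good ω) : eff ω [] < ⊤ := by
  rw [eff_root, ENNReal.sum_lt_top]
  intro i _
  exact (h.branch_le i).trans_lt (by simp)

/-- `C(T_i^*)/C(T)` in `[0, ∞]` -/
noncomputable def G (i : ℕ) (ω : Sample) : ℝ≥0∞ := branch ω i / eff ω []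

lemma measurable_G (i : ℕ) : Measurable (G i) := (measurable_branch i).div (measurable_eff [])

lemma Good.sum_G {ω : Sample} (h : Good ω) : ∑ i ∈ Finset.range (nch ω []), G i ω = 1 := by
  unfold G
  simp only [div_eq_mul_inv]
  rw [← Finset.sum_mul, ← eff_root]
  refine ENNReal.mul_inv_cancel ?_ h.eff_root_lt_top.ne
  exact (lt_of_lt_of_le one_pos (h.one_le_eff [])).ne'

lemma Good.G_le {ω : Sample} (h : Good ω) : G 0 ω ≤ 1 := by
  rw [← h.sum_G]
  refine Finset.single_le_sum (f := fun i => G i ω) (fun _ _ => bot_le) ?_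
  have := h.two_le_nch []
  simp only [Finset.mem_range]; omega

/-- the event that the root has index `k` -/
def A (k : ℕ) : Set Sample := {ω | ω.1 [] = k}

lemma measurableSet_A (k : ℕ) : MeasurableSet (A k) :=
  measurable_label [] (measurableSet_singleton k)

lemma gw_A (k : ℕ) : gw pp mm (A k) = pp {k} := by
  have h1 : MeasurePreserving (fun ω : Sample => ω.1 []) (gw pp mm) pp :=
      (measurePreserving_eval_infinitePi (fun _ : Vertex => pp) []).comp
        measurePreserving_fst
  rw [← h1.measure_preimage (measurableSet_singleton k).nullMeasurableSet]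
  rfl

instance : IsProbabilityMeasure (gw pp mm) := by unfold gw; infer_instance

lemma lintegral_swap (k i : ℕ) (hi : i < k + 1) :
    ∫⁻ ω in A k, G i ω ∂(gw pp mm) = ∫⁻ ω in A k, G 0 ω ∂(gw pp mm) := by
  rw [← lintegral_indicator (measurableSet_A k), ← lintegral_indicator (measurableSet_A k)]
  rw [← (measurePreserving_phi pp mm i).lintegral_comp
    ((measurable_G 0).indicator (measurableSet_A k))]
  refine lintegral_congr fun ω => ?_
  by_cases h : ω ∈ A k
  · have h' : phi i ω ∈ A k := h
    rw [Set.indicator_of_mem h, Set.indicator_of_mem h']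
    unfold G
    rw [phi_branch, phi_eff_root, Equiv.swap_apply_left]
    have h2 : ω.1 [] = k := h
    unfold nch
    rw [if_pos rfl, h2]; exact hi
  · have h' : phi i ω ∉ A k := h
    rw [Set.indicator_of_notMem h, Set.indicator_of_notMem h']

lemma lintegral_G (k : ℕ) :
    ((k : ℝ≥0∞) + 1) * ∫⁻ ω in A k, G 0 ω ∂(gw pp mm) = pp {k} := by
  have h1 : ∑ i ∈ Finset.range (k + 1), ∫⁻ ω in A k, G i ω ∂(gw pp mm) =
      ((k : ℝ≥0∞) + 1) * ∫⁻ ω in A k, G 0 ω ∂(gw pp mm) := by
    rw [Finset.sum_congr rfl (fun i hi => lintegral_swap k i (Finset.mem_range.mp hi))]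
    simp
  rw [← h1, ← lintegral_finsetSum _ (fun i _ => measurable_G i), ← gw_A k, ← setLIntegral_one]
  refine setLIntegral_congr_fun_ae (measurableSet_A k) ?_
  filter_upwards [ae_good] with ω hω hk
  have h2 : ω.1 [] = k := hk
  have h3 := hω.sum_G
  unfold nch at h3
  rwa [if_pos rfl, h2] at h3

lemma pp_two : pp {2} = 2⁻¹ := by
  simp [pp]

lemma pp_eleven : pp {11} = 2⁻¹ := by
  simp [pp]

lemma pp_other {k : ℕ} (h2 : k ≠ 2) (h11 : k ≠ 11) : pp {k} = 0 := by
  simp [pp, h2.symm, h11.symm]

lemma aemeas_G : AEMeasurable (G 0) (gw pp mm) := (measurable_G 0).aemeasurable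

lemma ratio_eq (ω : Sample) : ratio ω = (G 0 ω).toReal := rfl

lemma measurable_ratio : Measurable ratio := (measurable_G 0).ennreal_toReal

lemma setIntegral_ratio (k : ℕ) :
    ((k : ℝ) + 1) * ∫ ω in A k, ratio ω ∂(gw pp mm) = (pp {k}).toReal := by
  have h1 : ∫ ω in A k, ratio ω ∂(gw pp mm) = (∫⁻ ω in A k, G 0 ω ∂(gw pp mm)).toReal := by
    refine integral_toReal (measurable_G 0).aemeasurable ?_
    refine ae_restrict_of_ae ?_
    filter_upwards [ae_good] with ω hω
    exact hω.G_le.trans_lt (by simp)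
  rw [h1, ← lintegral_G k, ENNReal.toReal_mul]
  congr 1

lemma Good.ratio_nonneg (ω : Sample) : 0 ≤ ratio ω := ENNReal.toReal_nonneg

lemma Good.ratio_le_one {ω : Sample} (h : Good ω) : ratio ω ≤ 1 := by
  rw [ratio_eq]
  exact ENNReal.toReal_le_of_le_ofReal zero_le_one (by simpa using h.G_le)

lemma memLp_ratio : MemLp ratio 2 (gw pp mm) := by
  refine MemLp.of_bound measurable_ratio.aestronglyMeasurable 1 ?_
  filter_upwards [ae_good] with ω hω
  rw [Real.norm_of_nonneg (Good.ratio_nonneg ω)]
  exact hω.ratio_le_one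

lemma integrable_ratio : Integrable ratio (gw pp mm) := memLp_ratio.integrable (by norm_num)

lemma integral_ratio : ∫ ω, ratio ω ∂(gw pp mm) = 5 / 24 := by
  have h1 : ∫ ω, ratio ω ∂(gw pp mm) =
      ∫ ω in A 2, ratio ω ∂(gw pp mm) + ∫ ω in A 11, ratio ω ∂(gw pp mm) := by
    rw [← setIntegral_union _ (measurableSet_A 11) integrable_ratio.integrableOn
      integrable_ratio.integrableOn, ← setIntegral_univ]
    · refine setIntegral_congr_set ?_
      refine (Filter.eventuallyEq_univ.mpr ?_).symm
      filter_upwards [ae_good] with ω hω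
      exact hω.2 []
    · rw [Set.disjoint_left]
      intro ω h2 h11
      have h3 : ω.1 [] = 2 := h2
      have h4 : ω.1 [] = 11 := h11
      omega
  have h2 := setIntegral_ratio 2
  have h3 := setIntegral_ratio 11
  rw [pp_two] at h2
  rw [pp_eleven] at h3
  rw [h1]
  simp only [ENNReal.toReal_inv, ENNReal.toReal_ofNat] at h2 h3
  push_cast at h2 h3
  linarith

/-- the event that both ends of the first edge have index `11` -/
def B : Set Sample := {ω | ω.1 [] = 11 ∧ ω.1 [0] = 11}

lemma measurableSet_B : MeasurableSet B :=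
  (measurable_label [] (measurableSet_singleton 11)).inter
    (measurable_label [0] (measurableSet_singleton 11))

lemma gw_B : gw pp mm B = 4⁻¹ := by
  have h1 : gw pp mm B = (Measure.infinitePi fun _ : Vertex => pp)
      (Set.pi (({[], [0]} : Finset Vertex) : Set Vertex) (fun _ => {11})) := by
    rw [← (measurePreserving_fst (μ := Measure.infinitePi fun _ : Vertex => pp)
      (ν := Measure.infinitePi fun e : Vertex × Sym2 ℕ => mm e.2)).measure_preimage]
    · congr 1
      ext ω
      simp [B]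
    · refine (MeasurableSet.pi (Finset.countable_toSet _) fun _ _ => ?_).nullMeasurableSet
      exact measurableSet_singleton 11
  rw [h1, Measure.infinitePi_pi _ (fun _ _ => measurableSet_singleton 11)]
  rw [Finset.prod_pair (by simp), pp_eleven, ← ENNReal.mul_inv (by simp) (by simp)]
  norm_num

lemma xi0_eq {ω : Sample} (h : Good ω) : xi0 ω = 1 + B.indicator 1 ω := by
  unfold xi0
  rw [h.xi]
  unfold cc
  by_cases hB : ω ∈ B
  · rw [Set.indicator_of_mem hB]
    obtain ⟨h1, h2⟩ := hB
    rw [if_pos (by simp only [List.nil_append]; rw [h1, h2])]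
    norm_num
  · rw [Set.indicator_of_notMem hB, if_neg]
    · norm_num
    · intro h3
      apply hB
      rw [Sym2.eq_iff] at h3
      simp only [List.nil_append] at h3
      rcases h3 with h3 | h3
      · exact h3
      · exact ⟨h3.1, h3.2⟩

lemma measurable_xi0 : Measurable xi0 := measurable_xi [] 0

lemma memLp_xi0 : MemLp xi0 2 (gw pp mm) := by
  refine MemLp.of_bound measurable_xi0.aestronglyMeasurable 2 ?_
  filter_upwards [ae_good] with ω hω
  unfold xi0
  rw [hω.xi, Real.norm_of_nonneg (zero_le_one.trans (one_le_cc _))]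
  exact cc_le _

lemma integral_xi0 : ∫ ω, xi0 ω ∂(gw pp mm) = 5 / 4 := by
  have h1 : ∫ ω, xi0 ω ∂(gw pp mm) = ∫ ω, (1 + B.indicator 1 ω) ∂(gw pp mm) := by
    refine integral_congr_ae ?_
    filter_upwards [ae_good] with ω hω
    exact xi0_eq hω
  rw [h1, integral_add (integrable_const _), integral_indicator_one measurableSet_B]
  · simp only [integral_const, smul_eq_mul, mul_one, measureReal_def, gw_B]
    simp only [ENNReal.toReal_inv, ENNReal.toReal_ofNat]
    norm_num
  · exact (integrable_const (1 : ℝ)).indicator measurableSet_B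

lemma integral_mul : ∫ ω, xi0 ω * ratio ω ∂(gw pp mm) ≤ 1 / 4 := by
  have h1 : ∫ ω, xi0 ω * ratio ω ∂(gw pp mm) ≤
      ∫ ω, (ratio ω + (A 11).indicator ratio ω) ∂(gw pp mm) := by
    refine integral_mono_ae ?_ ?_ ?_
    · exact memLp_xi0.integrable_mul memLp_ratio
    · exact integrable_ratio.add (integrable_ratio.indicator (measurableSet_A 11))
    · filter_upwards [ae_good] with ω hω
      show xi0 ω * ratio ω ≤ ratio ω + (A 11).indicator ratio ω
      rw [xi0_eq hω, add_mul, one_mul]
      refine add_le_add le_rfl ?_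
      by_cases hB : ω ∈ B
      · have hA : ω ∈ A 11 := hB.1
        rw [Set.indicator_of_mem hB, Set.indicator_of_mem hA]
        simp
      · rw [Set.indicator_of_notMem hB, zero_mul]
        exact Set.indicator_nonneg (fun _ _ => Good.ratio_nonneg _) _
  rw [integral_add integrable_ratio (integrable_ratio.indicator (measurableSet_A 11)),
    integral_indicator (measurableSet_A 11), integral_ratio] at h1
  have h3 := setIntegral_ratio 11
  rw [pp_eleven] at h3
  simp only [ENNReal.toReal_inv, ENNReal.toReal_ofNat] at h3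
  push_cast at h3
  linarith

lemma cov_le : covariance xi0 ratio (gw pp mm) ≤ - (1 / 96) := by
  rw [covariance_eq_sub memLp_xi0 memLp_ratio, integral_xi0, integral_ratio]
  have := integral_mul
  have h2 : ∫ ω, (xi0 * ratio) ω ∂(gw pp mm) ≤ 1 / 4 := this
  linarith

lemma not_const : ¬ ∃ c : ℝ, ∀ᵐ ω ∂(gw pp mm), xi0 ω = c := by
  rintro ⟨c, hc⟩
  have h1 : ∫ ω, xi0 ω ∂(gw pp mm) = c := by
    rw [integral_congr_ae (g := fun _ => c) hc]
    simp
  have h2 : covariance xi0 ratio (gw pp mm) = 0 := by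
    unfold covariance
    rw [integral_congr_ae (g := fun _ => 0)]
    · simp
    · filter_upwards [hc] with ω hω
      rw [hω, h1]
      simp
  have := cov_le
  rw [h2] at this
  norm_num at this

lemma tsum_pp (f : ℕ → ℝ≥0∞) : ∑' k, pp {k} * f k = 2⁻¹ * (f 2 + f 11) := by
  rw [tsum_eq_sum (s := {2, 11})]
  · rw [Finset.sum_pair (by norm_num), pp_two, pp_eleven, mul_add]
  · intro k hk
    simp only [Finset.mem_insert, Finset.mem_singleton, not_or] at hk
    rw [pp_other hk.1 hk.2, zero_mul]

lemma edgeMean_mm (s : Sym2 ℕ) : edgeMean mm s = ENNReal.ofReal (cc s) := by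
  unfold edgeMean mm
  rw [lintegral_dirac]

lemma cc_2_2 : cc s(2, 2) = 1 := by unfold cc; rw [if_neg]; simp
lemma cc_2_11 : cc s(2, 11) = 1 := by unfold cc; rw [if_neg]; simp
lemma cc_11_2 : cc s(11, 2) = 1 := by unfold cc; rw [if_neg]; simp
lemma cc_11_11 : cc s(11, 11) = 2 := by unfold cc; rw [if_pos rfl]

lemma gam_eq : gam pp mm = ENNReal.ofReal (5 / 4) := by
  unfold gam
  simp only [mul_assoc, ENNReal.tsum_mul_left, edgeMean_mm, tsum_pp]
  rw [cc_2_2, cc_2_11, cc_11_2, cc_11_11]
  have h1 : (2⁻¹ : ℝ≥0∞) = ENNReal.ofReal (1 / 2) := by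
    rw [one_div, ENNReal.ofReal_inv_of_pos (by norm_num)]; simp
  rw [h1, ← ENNReal.ofReal_add (by norm_num) (by norm_num),
    ← ENNReal.ofReal_add (by norm_num) (by norm_num),
    ← ENNReal.ofReal_mul (by norm_num), ← ENNReal.ofReal_mul (by norm_num),
    ← ENNReal.ofReal_add (by norm_num) (by norm_num), ← ENNReal.ofReal_mul (by norm_num)]
  norm_num

lemma vSRW_pp : vSRW pp = 7 / 12 := by
  unfold vSRW
  rw [tsum_eq_sum (s := {2, 11})]
  · rw [Finset.sum_pair (by norm_num), pp_two, pp_eleven]
    simp only [ENNReal.toReal_inv, ENNReal.toReal_ofNat]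
    norm_num
  · intro k hk
    simp only [Finset.mem_insert, Finset.mem_singleton, not_or] at hk
    rw [pp_other hk.1 hk.2, ENNReal.toReal_zero, zero_mul]

lemma speedValue_ge : 3 / 5 ≤ speedValue pp mm := by
  unfold speedValue
  rw [gam_eq, ENNReal.toReal_ofReal (by norm_num)]
  have := integral_mul
  linarith

/-- There are an offspring law `p` and conductance laws `mu` on `(0,∞)` with finite `γ`, with not
all `γ_{k,m}` equal and with `ξ_0` non-degenerate, for which the covariance of `ξ_0` and
`C(T_0^*)/C(T)` is negative, so that the speed `v = 1 - (2/γ) E(ξ_0 C(T_0^*)/C(T))` is larger than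
`v_SRW`. -/
theorem result : ∃ (p : Measure ℕ) (mu : Sym2 ℕ → Measure ℝ) (_ : IsProbabilityMeasure p)
    (_ : ∀ s, IsProbabilityMeasure (mu s)),
    p {0} = 0 ∧ p {1} < 1 ∧ (∀ s, mu s (Set.Iic 0) = 0) ∧ gam p mu < ⊤ ∧
    (∃ k l k' l' : ℕ, p {k} ≠ 0 ∧ p {l} ≠ 0 ∧ p {k'} ≠ 0 ∧ p {l'} ≠ 0 ∧
      edgeMean mu s(k, l) ≠ edgeMean mu s(k', l')) ∧
    (¬ ∃ c : ℝ, ∀ᵐ ω ∂(gw p mu), xi0 ω = c) ∧
    (∀ᵐ ω ∂(gw p mu), 0 < eff ω [] ∧ eff ω [] < ⊤) ∧
    MemLp xi0 2 (gw p mu) ∧ MemLp ratio 2 (gw p mu) ∧
    covariance xi0 ratio (gw p mu) < 0 ∧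
    vSRW p < speedValue p mu := by
  refine ⟨pp, mm, inferInstance, inferInstance, ?_, ?_, ?_, ?_, ?_, not_const, ?_, memLp_xi0,
    memLp_ratio, ?_, ?_⟩
  · exact pp_other (by norm_num) (by norm_num)
  · rw [pp_other (by norm_num) (by norm_num)]; exact zero_lt_one
  · intro s
    unfold mm
    rw [Measure.dirac_apply' _ measurableSet_Iic, Set.indicator_of_notMem]
    intro h
    have := one_le_cc s
    have h2 : cc s ≤ 0 := h
    linarith
  · rw [gam_eq]; exact ENNReal.ofReal_lt_top
  · refine ⟨2, 2, 11, 11, ?_, ?_, ?_, ?_, ?_⟩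
    · rw [pp_two]; simp
    · rw [pp_two]; simp
    · rw [pp_eleven]; simp
    · rw [pp_eleven]; simp
    · rw [edgeMean_mm, edgeMean_mm, cc_2_2, cc_11_11]
      simp
  · filter_upwards [ae_good] with ω hω
    exact ⟨lt_of_lt_of_le one_pos (hω.one_le_eff []), hω.eff_root_lt_top⟩
  · have := cov_le
    linarith
  · rw [vSRW_pp]
    have := speedValue_ge
    linarith

end Pool.Agent.Results.MP_8be476_pr.NegativeCovariance
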